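import Pool.Agent.Y506.RG.Stm
import Pool.Agent.Y655.FF.Spl

/-!
# Splitting off one direction, stronger form
-/

set_option autoImplicit false

namespace Pool.Agent.Y429.RG

open MeasureTheory Set Filter Topology
open scoped ENNReal InnerProductSpace
open Pool.Agent.W695.KH (Eu)
open Pool.Agent.Y506.FF (Pair)
open Pool.Agent.Y506.RG (S_SPL2)
open Pool.Agent.Y655.FF (cn tl J ex cn_zero cn_succ inner_cn cn_add cn_smul ex_apply lintegral_cn)

/-- **splitting off one direction** -/
theorem spl2 : S_SPL2 := by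
  intro ι _ n d L M hP θ hθ
  obtain ⟨b, hb⟩ := Orthonormal.exists_orthonormalBasis_extension_of_card_eq
    (𝕜 := ℝ) (E := Eu (Fin (n + 1))) (ι := Fin (n + 1)) (by simp) (v := fun _ => θ)
    (s := {0}) (by
      refine ⟨fun i => hθ, fun i j hij => ?_⟩
      exfalso
      apply hij
      have h1 := i.2
      have h2 := j.2
      rw [Set.mem_singleton_iff] at h1 h2
      exact Subtype.ext (h1.trans h2.symm))
  have hb0 : b 0 = θ := hb 0 rfl
  set R : Eu (Fin (n + 1)) ≃ₗᵢ[ℝ] Eu (Fin (n + 1)) := b.repr.symm with hR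
  have hR0 : R (EuclideanSpace.single 0 1) = θ := by
    rw [hR, OrthonormalBasis.repr_symm_single, hb0]
  have hs : (EuclideanSpace.single 0 1 : Eu (Fin (n + 1))) = cn 1 0 := by
    ext i
    refine Fin.cases ?_ (fun i => ?_) i
    · simp [cn_zero]
    · simp [cn_succ]
  rw [hs] at hR0
  have hw : ‖L θ‖ = 1 := by rw [L.norm_map, hθ]
  have hM : ∀ z, ⟪L θ, M z⟫_ℝ = 0 := fun z => hP.orth θ z
  refine ⟨L.comp (R.toLinearIsometry.comp (J n)), ex M (L θ) hw hM, EuclideanSpace.single 0 1,
    ⟨?_, ?_⟩, by simp, ?_, ?_, ?_⟩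
  · intro x z
    rw [ex_apply, inner_add_right, real_inner_smul_right]
    have e1 : ⟪(L.comp (R.toLinearIsometry.comp (J n))) x, L θ⟫_ℝ = 0 := by
      show ⟪L (R (cn 0 x)), L θ⟫_ℝ = 0
      rw [L.inner_map_map, ← hR0, R.inner_map_map, inner_cn]
      simp
    rw [e1]
    have e2 : ⟪(L.comp (R.toLinearIsometry.comp (J n))) x, M (tl z)⟫_ℝ = 0 := hP.orth _ _
    rw [e2]
    ring
  · have := hP.card
    omega
  · have e4 : tl (EuclideanSpace.single 0 1 : Eu (Fin (d + 1))) = 0 := by
      ext i
      simp [tl]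
    rw [ex_apply, e4, map_zero, add_zero]
    simp
  · intro z
    refine ⟨cn 0 z, ?_⟩
    have e4 : tl (cn 0 z) = z := rfl
    rw [ex_apply, e4, cn_zero, zero_smul, zero_add]
  · intro φ G hφ hG
    have hLm : Measurable fun x : Eu (Fin (n + 1)) => G (L x) := hG.comp L.continuous.measurable
    have hin : Measurable fun x : Eu (Fin (n + 1)) => φ ⟪θ, x⟫_ℝ :=
      hφ.comp (continuous_const.inner continuous_id).measurable
    have hmul : Measurable fun x : Eu (Fin (n + 1)) => φ ⟪θ, x⟫_ℝ * G (L x) := hin.mul hLm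
    rw [← R.measurePreserving.lintegral_comp hmul]
    have hm : Measurable fun y : Eu (Fin (n + 1)) => φ ⟪θ, R y⟫_ℝ * G (L (R y)) :=
      hmul.comp R.continuous.measurable
    rw [lintegral_cn hm]
    refine lintegral_congr fun u => ?_
    have e1 : ∀ x : Eu (Fin n), ⟪θ, R (cn u x)⟫_ℝ = u := by
      intro x
      rw [← hR0, R.inner_map_map, inner_cn]
      simp
    have e2 : ∀ x : Eu (Fin n), L (R (cn u x)) =
        (L.comp (R.toLinearIsometry.comp (J n))) x +
          ex M (L θ) hw hM (u • EuclideanSpace.single 0 1) := by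
      intro x
      have e3 : cn u x = cn 0 x + u • cn 1 0 := by
        rw [← cn_smul, ← cn_add]
        simp
      have e4 : tl (u • (EuclideanSpace.single 0 1 : Eu (Fin (d + 1)))) = 0 := by
        ext i
        simp [tl]
      rw [ex_apply, e4, map_zero, add_zero, e3, map_add, map_smul, hR0, map_add, map_smul]
      have e5 : (u • (EuclideanSpace.single 0 1 : Eu (Fin (d + 1)))) 0 = u := by simp
      rw [e5]
      rfl
    have hm2 : Measurable fun x : Eu (Fin n) => G ((L.comp (R.toLinearIsometry.comp (J n))) x +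
        ex M (L θ) hw hM (u • EuclideanSpace.single 0 1)) :=
      hG.comp ((LinearIsometry.continuous _).measurable.add_const _)
    rw [← lintegral_const_mul _ hm2]
    refine lintegral_congr fun x => ?_
    rw [e1, e2]

end Pool.Agent.Y429.RG
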